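import Mathlib
import Pool.Agent.H355R3.UF.Stmts

set_option autoImplicit false

namespace H355R3.UF

open H355R3 RegularWreathProduct

section H3

variable {M G K : Type} [Group M] [Group G] [Group K]

/-- right part as an element of `G` -/
def h3pi1 (R : Subgroup (RegularWreathProduct M G)) [R.Normal] (K : Type) [Group K] :
    sliceSub R K →* G :=
  (MonoidHom.fst G K).comp
    ((rightHom : RegularWreathProduct M (G × K) →* G × K).comp (sliceSub R K).subtype)

/-- right part as an element of `K` -/
def h3pi2 (R : Subgroup (RegularWreathProduct M G)) [R.Normal] (K : Type) [Group K] :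
    sliceSub R K →* K :=
  (MonoidHom.snd G K).comp
    ((rightHom : RegularWreathProduct M (G × K) →* G × K).comp (sliceSub R K).subtype)

theorem h3_mem_sliceSub {R : Subgroup (RegularWreathProduct M G)} [R.Normal]
    (w : RegularWreathProduct M (G × K)) :
    w ∈ sliceSub R K ↔ ∀ k : K, (⟨fun g => w.left (g, k), 1⟩ : RegularWreathProduct M G) ∈ R :=
  Iff.rfl

theorem h3_one_right_mem {R : Subgroup (RegularWreathProduct M G)} [R.Normal] (g : G) (k : K) :
    (⟨1, (g, k)⟩ : RegularWreathProduct M (G × K)) ∈ sliceSub R K := by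
  rw [h3_mem_sliceSub]
  intro k'
  exact R.one_mem

theorem h3pi1_surj (R : Subgroup (RegularWreathProduct M G)) [R.Normal] :
    Function.Surjective (h3pi1 R K) := fun g =>
  ⟨⟨⟨1, (g, 1)⟩, h3_one_right_mem g 1⟩, rfl⟩

theorem h3pi2_surj (R : Subgroup (RegularWreathProduct M G)) [R.Normal] :
    Function.Surjective (h3pi2 R K) := fun k =>
  ⟨⟨⟨1, (1, k)⟩, h3_one_right_mem 1 k⟩, rfl⟩

/-- the special element `f` -/
theorem h3_exists_f (R : Subgroup (RegularWreathProduct M G)) [hR : R.Normal] (y : G)
    (hy : y ≠ 1) (hu : ∃ u ∈ R, u.right = y) (a : M) :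
    ∃ f : G → M, (⟨f, 1⟩ : RegularWreathProduct M G) ∈ R ∧ f 1 = a ∧
      ∀ g, g ≠ 1 → g ≠ y → f g = 1 := by
  classical
  obtain ⟨v, hv, rfl⟩ := hu
  let b : RegularWreathProduct M G := ⟨Pi.mulSingle 1 a, 1⟩
  have hc : b * v * b⁻¹ * v⁻¹ ∈ R := R.mul_mem (hR.conj_mem v hv b) (R.inv_mem hv)
  have hright : (b * v * b⁻¹ * v⁻¹).right = 1 := by simp [b]
  refine ⟨(b * v * b⁻¹ * v⁻¹).left, ?_, ?_, ?_⟩
  · have e : (⟨(b * v * b⁻¹ * v⁻¹).left, 1⟩ : RegularWreathProduct M G) = b * v * b⁻¹ * v⁻¹ := by
      apply RegularWreathProduct.ext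
      · rfl
      · exact hright.symm
    rw [e]
    exact hc
  · have h1 : (Pi.mulSingle (1 : G) a : G → M) (v.right⁻¹) = 1 :=
      Pi.mulSingle_eq_of_ne (M := fun _ : G => M) (inv_ne_one.2 hy) a
    simp [b, h1]
  · intro g hg1 hgy
    have h1 : (Pi.mulSingle (1 : G) a : G → M) g = 1 :=
      Pi.mulSingle_eq_of_ne (M := fun _ : G => M) hg1 a
    have h2 : (Pi.mulSingle (1 : G) a : G → M) (v.right⁻¹ * g) = 1 := by
      apply Pi.mulSingle_eq_of_ne (M := fun _ : G => M)
      intro h
      apply hgy
      have := congrArg (fun z => v.right * z) h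
      simpa using this
    simp [b, h1, h2]

end H3

theorem taskH3 : TaskH3 := by
  intro A B M G K _ _ _ _ _ _ x y R hR hu hyx hG hord hA
  classical
  have hy1 : y ≠ 1 := fun h => hyx (h ▸ Subgroup.one_mem _)
  set J := sliceSub R K with hJ
  have hker1 : B.residual J ≤ (h3pi1 R K).ker :=
    (B.residual_le_ker_iff (h3pi1 R K) (h3pi1_surj R)).2 hG
  have hr1 : ∀ w ∈ B.residual J, (w : RegularWreathProduct M (G × K)).right.1 = 1 := by
    intro w hw
    exact hker1 hw
  have hmap := B.map_residual (h3pi2 R K) (h3pi2_surj R)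
  have hr2 : ∀ w ∈ B.residual J, (w : RegularWreathProduct M (G × K)).right.2 ∈ B.residual K := by
    intro w hw
    rw [← hmap]
    exact ⟨w, hw, rfl⟩
  let φ : B.residual J →* RegularWreathProduct M (B.residual K) :=
    { toFun := fun w => ⟨fun k => ((w : J) : RegularWreathProduct M (G × K)).left (1, (k : K)),
        ⟨((w : J) : RegularWreathProduct M (G × K)).right.2, hr2 w w.2⟩⟩
      map_one' := by
        apply RegularWreathProduct.ext
        · funext k; rfl
        · rfl
      map_mul' := by
        intro a b
        apply RegularWreathProduct.ext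
        · funext k
          have h1 := hr1 a a.2
          simp only [Subgroup.coe_mul, RegularWreathProduct.mul_left, Pi.mul_apply]
          congr 2
          apply Prod.ext
          · simp [h1]
          · simp
        · rfl }
  have hφl : ∀ (w : B.residual J) (k : B.residual K), (φ w).left k =
      ((w : J) : RegularWreathProduct M (G × K)).left (1, (k : K)) := fun _ _ => rfl
  have hφr : ∀ (w : B.residual J), ((φ w).right : K) =
      ((w : J) : RegularWreathProduct M (G × K)).right.2 := fun _ => rfl
  have hn : 0 < orderOf x := orderOf_pos x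
  -- powers lie in the residual
  have hpow : ∀ w : J, (w : RegularWreathProduct M (G × K)).right.1 = x →
      w ^ orderOf x ∈ B.residual J := by
    intro w hw
    have h1 := hord (J ⧸ B.residual J) (B.mem_quot_residual J) (w : J ⧸ B.residual J)
    have h2 : (w : J ⧸ B.residual J) ^ orderOf (w : J ⧸ B.residual J) = 1 := pow_orderOf_eq_one _
    rw [← QuotientGroup.mk_pow, QuotientGroup.eq_one_iff] at h2
    have h3 := hker1 h2
    rw [MonoidHom.mem_ker, map_pow] at h3
    have h4 : h3pi1 R K w = x := hw
    rw [h4] at h3
    have h5 := orderOf_dvd_of_pow_eq_one h3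
    have h6 := Nat.le_of_dvd (orderOf_pos _) h5
    have h7 : orderOf (w : J ⧸ B.residual J) = orderOf x := le_antisymm h1 h6
    rwa [h7] at h2
  -- base elements
  have hsingle : ∀ (k₀ : B.residual K) (a : M),
      (⟨Pi.mulSingle k₀ a, 1⟩ : RegularWreathProduct M (B.residual K)) ∈ φ.range := by
    intro k₀ a
    obtain ⟨f, hfR, hf1, hf⟩ := h3_exists_f R y hy1 hu a
    let w : RegularWreathProduct M (G × K) := ⟨fun p => if p.2 = (k₀ : K) then f p.1 else 1, (x, 1)⟩
    have hwJ : w ∈ J := by
      rw [hJ, h3_mem_sliceSub]
      intro k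
      by_cases hk : k = (k₀ : K)
      · have e : (⟨fun g => w.left (g, k), 1⟩ : RegularWreathProduct M G) = ⟨f, 1⟩ := by
          apply RegularWreathProduct.ext
          · funext g; simp [w, hk]
          · rfl
        rw [e]; exact hfR
      · have e : (⟨fun g => w.left (g, k), 1⟩ : RegularWreathProduct M G) = 1 := by
          apply RegularWreathProduct.ext
          · funext g; simp [w, hk]
          · rfl
        rw [e]; exact R.one_mem
    have hstep : ∀ (j : ℕ) (g : G) (k : K), (w ^ (j + 1)).left (g, k) =
        (if k = (k₀ : K) then f g else 1) * (w ^ j).left (x⁻¹ * g, k) := by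
      intro j g k
      rw [pow_succ']
      simp only [RegularWreathProduct.mul_left, Pi.mul_apply]
      congr 2
      apply Prod.ext
      · simp [w]
      · simp [w]
    have hother : ∀ (j : ℕ) (g : G) (k : K), k ≠ (k₀ : K) → (w ^ j).left (g, k) = 1 := by
      intro j
      induction j with
      | zero => intro g k _; simp
      | succ j ih =>
        intro g k hk
        rw [hstep, if_neg hk, one_mul]
        exact ih _ _ hk
    have hclaimA : ∀ (j : ℕ) (g : G), (∀ i < j, (x ^ i)⁻¹ * g ≠ 1) →
        (∀ i < j, (x ^ i)⁻¹ * g ≠ y) → (w ^ j).left (g, (k₀ : K)) = 1 := by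
      intro j
      induction j with
      | zero => intro g _ _; simp
      | succ j ih =>
        intro g h1 h2
        rw [hstep, if_pos rfl]
        have e1 : f g = 1 := by
          apply hf
          · simpa using h1 0 (Nat.succ_pos j)
          · simpa using h2 0 (Nat.succ_pos j)
        rw [e1, one_mul]
        apply ih
        · intro i hi
          have := h1 (i + 1) (Nat.succ_lt_succ hi)
          rwa [pow_succ', mul_inv_rev, mul_assoc] at this
        · intro i hi
          have := h2 (i + 1) (Nat.succ_lt_succ hi)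
          rwa [pow_succ', mul_inv_rev, mul_assoc] at this
    have hk₀ : (w ^ orderOf x).left (1, (k₀ : K)) = a := by
      obtain ⟨m, hm⟩ : ∃ m, orderOf x = m + 1 := ⟨orderOf x - 1, by omega⟩
      rw [hm, hstep, if_pos rfl, hf1]
      rw [hclaimA m, mul_one]
      · intro i hi h
        have e : (x ^ (i + 1))⁻¹ = 1 := by
          rw [pow_succ', mul_inv_rev]
          simpa using h
        rw [inv_eq_one] at e
        have h3 := orderOf_dvd_of_pow_eq_one e
        have h4 := Nat.le_of_dvd (Nat.succ_pos i) h3
        omega
      · intro i hi h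
        apply hyx
        rw [← h]
        simp only [mul_one]
        exact Subgroup.mul_mem _ (Subgroup.inv_mem _ (Subgroup.pow_mem _
          (Subgroup.mem_zpowers x) i)) (Subgroup.inv_mem _ (Subgroup.mem_zpowers x))
    have hres := hpow ⟨w, hwJ⟩ rfl
    refine ⟨⟨_, hres⟩, ?_⟩
    apply RegularWreathProduct.ext
    · funext k
      rw [hφl]
      show (w ^ orderOf x).left (1, (k : K)) = (Pi.mulSingle k₀ a : B.residual K → M) k
      by_cases hk : k = k₀
      · subst hk
        rw [hk₀, Pi.mulSingle_eq_same]
      · rw [Pi.mulSingle_eq_of_ne hk, hother]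
        intro h
        exact hk (Subtype.ext h)
    · apply Subtype.ext
      rw [hφr]
      show (w ^ orderOf x).right.2 = 1
      have h5 : (w ^ orderOf x).right = w.right ^ orderOf x :=
        map_pow (rightHom : RegularWreathProduct M (G × K) →* G × K) w _
      rw [h5]
      simp [w]
  -- the whole base
  let base : (B.residual K → M) →* RegularWreathProduct M (B.residual K) :=
    { toFun := fun h => ⟨h, 1⟩
      map_one' := rfl
      map_mul' := by
        intro a b
        apply RegularWreathProduct.ext
        · funext k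
          simp
        · simp }
  have hbase : ∀ h : B.residual K → M, base h ∈ φ.range := by
    intro h
    have h1 : h ∈ φ.range.comap base := by
      apply Subgroup.pi_mem_of_mulSingle_mem
      intro k
      exact hsingle k (h k)
    exact h1
  refine A.mem_of_surjective φ ?_ hA
  intro z
  have hz : (z.right : K) ∈ (B.residual J).map (h3pi2 R K) := by
    rw [hmap]; exact z.right.2
  obtain ⟨u, huJ, hu2⟩ := hz
  have hmem : z ∈ φ.range := by
    have e : z = base (z.left * (φ ⟨u, huJ⟩).left⁻¹) * φ ⟨u, huJ⟩ := by
      apply RegularWreathProduct.ext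
      · funext k
        simp [base]
      · apply Subtype.ext
        show (z.right : K) = ((1 * (φ ⟨u, huJ⟩).right : B.residual K) : K)
        rw [one_mul, hφr]
        exact hu2.symm
    rw [e]
    exact φ.range.mul_mem (hbase _) ⟨_, rfl⟩
  exact hmem

end H355R3.UF
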